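import Mathlib
import Pool.Agent.H10.FiveDefs
import Pool.Agent.H10.FiveGeo

set_option autoImplicit false

namespace Pool.Agent.Results.MP_0aa80c_co.NoFive

open Pool.Agent.H10.FiveDefs in
/-- In every non-overlapping family of five convex bodies in three-space some body is not
translation-blocked. -/
theorem result (K : Fin 5 → Set E3) (hK : ∀ i, IsBody (K i))
    (hd : ∀ i j, i ≠ j → interior (K i) ∩ interior (K j) = ∅) : ∃ i, ¬ Blocked K i :=
  Pool.Agent.H10.Five.main K hK hd

end Pool.Agent.Results.MP_0aa80c_co.NoFive
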